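import Pool.Agent.helper10.V3.SpecL

set_option autoImplicit false

open Complex Metric Set Filter Topology MeasureTheory MPS

noncomputable section

namespace V3S

theorem CHT (hNCH : NCH_stmt) (hLMB : LMB_stmt) (hLPI : LPI_stmt) (hBA1 : BA1_stmt) : CHT_stmt := by
  intro n ra Cf D hD x hx
  obtain ⟨hxP, hx0⟩ := hx
  obtain ⟨hdiff, hconv, -, hreg, -⟩ := hLMB n ra Cf D hD
  obtain ⟨-, -, -, hcl, -⟩ := hLPI n ra Cf D hD
  set β : ℝ := ‖Bin D x‖ with hβ
  have hβ0 : 0 < β := norm_pos_iff.2 hx0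
  obtain ⟨r, hr, hregr⟩ := hreg x hxP
  have hop : IsOpen (Pin D)ᶜ := hcl.isOpen_compl
  have hcont : ContinuousAt (Bin D) x := (hdiff.differentiableAt (hop.mem_nhds hxP)).continuousAt
  -- choice of ρ
  obtain ⟨δ, hδ, hδB⟩ := Metric.continuousAt_iff.1 hcont (β / 200) (by positivity)
  obtain ⟨δ', hδ', hδP⟩ := Metric.isOpen_iff.1 hop x hxP
  obtain ⟨ρ, hρ, hρδ, hρδ', hρr⟩ : ∃ ρ : ℝ, 0 < ρ ∧ 3 * ρ < δ ∧ 3 * ρ < δ' ∧ 3 * ρ < r := by
    refine ⟨min δ (min δ' r) / 4, by positivity, ?_, ?_, ?_⟩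
    · have := min_le_left δ (min δ' r); linarith
    · have := (min_le_right δ (min δ' r)).trans (min_le_left δ' r); linarith
    · have := (min_le_right δ (min δ' r)).trans (min_le_right δ' r); linarith
  have hK : IsCompact (closedBall x (3 * ρ)) := isCompact_closedBall x _
  have hKP : closedBall x (3 * ρ) ⊆ (Pin D)ᶜ := fun z hz => hδP (by
    rw [mem_ball]; exact lt_of_le_of_lt (mem_closedBall.1 hz) hρδ')
  have hu := Metric.tendstoUniformlyOn_iff.1 (hconv _ hK hKP) (β / 200) (by positivity)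
  -- constants
  set s : ℝ := Real.sqrt (β / 2) with hs
  have hs0 : 0 < s := Real.sqrt_pos.2 (by positivity)
  set h : ℝ := min 1 (9 * ρ * s / 160) with hh
  have hh0 : 0 < h := lt_min one_pos (by positivity)
  have hh1 : h ≤ 1 := min_le_left _ _
  have hh2 : 16 * h ≤ 9 * ρ * s / 10 := by
    have := min_le_right 1 (9 * ρ * s / 160)
    linarith
  set C : ℝ := 1 + 2 / β + 2 * β with hC
  have hC1 : 1 ≤ C := by
    have h1 : 0 < 2 / β := by positivity
    have h2 : 0 < 2 * β := by positivity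
    linarith
  refine ⟨h, hh0, ρ, hρ, C, hC1, hh1, ?_⟩
  filter_upwards [hu, hregr] with m hm hm2 y hy
  obtain ⟨hBd, hBp⟩ := hm2
  have hG := hD.good m
  obtain ⟨hsg, -, hxz, -⟩ := hBA1 n ra Cf (D m) hG
  have hnear : ∀ z ∈ ball x (3 * ρ), ‖(D m).B z - Bin D x‖ ≤ β / 100 := by
    intro z hz
    have h1 := hm z (ball_subset_closedBall hz)
    have h2 := hδB (x := z) (by rw [mem_ball] at hz; linarith)
    rw [dist_eq_norm] at h1 h2
    have h3 : (D m).B z - Bin D x = -(Bin D z - (D m).B z) + (Bin D z - Bin D x) := by ring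
    rw [h3]
    refine (norm_add_le _ _).trans ?_
    rw [norm_neg]
    linarith
  have hyn : ‖(D m).B y - Bin D x‖ ≤ β / 100 := hnear y (ball_subset_ball (by linarith) hy)
  have hyl : 99 / 100 * β ≤ ‖(D m).B y‖ := by
    have h1 : β ≤ ‖(D m).B y‖ + ‖(D m).B y - Bin D x‖ := by
      have h2 : Bin D x = (D m).B y - ((D m).B y - Bin D x) := by ring
      calc β = ‖(D m).B y - ((D m).B y - Bin D x)‖ := by rw [← h2]
        _ ≤ _ := norm_sub_le _ _
    linarith
  have hyu : ‖(D m).B y‖ ≤ 101 / 100 * β := by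
    have h1 : ‖(D m).B y‖ ≤ ‖(D m).B y - Bin D x‖ + β := by
      have h2 : (D m).B y = ((D m).B y - Bin D x) + Bin D x := by ring
      calc ‖(D m).B y‖ = ‖((D m).B y - Bin D x) + Bin D x‖ := by rw [← h2]
        _ ≤ _ := norm_add_le _ _
    linarith
  have hy0 : (D m).B y ≠ 0 := by
    intro h0
    rw [h0, norm_zero] at hyl
    linarith
  have hypos : 0 < ‖(D m).B y‖ := norm_pos_iff.2 hy0
  have hsub : ball y ρ ⊆ ball x (3 * ρ) := by
    intro z hz
    rw [mem_ball] at hz hy ⊢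
    have := dist_triangle z y x
    linarith
  have hsub' : ball y ρ ⊆ ball x r := hsub.trans (ball_subset_ball (by linarith))
  obtain ⟨χ, hχd, hχ0, hχ⟩ := hNCH (D m).B y ρ hρ (hBd.mono hsub') hy0 (by
    intro z hz
    have h1 := hnear z (hsub hz)
    have h2 : (D m).B z / (D m).B y - 1 = ((D m).B z - (D m).B y) / (D m).B y := by
      field_simp
    rw [h2, norm_div, div_le_iff₀ hypos]
    have h3 : (D m).B z - (D m).B y = ((D m).B z - Bin D x) - ((D m).B y - Bin D x) := by ring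
    rw [h3]
    have h4 := norm_sub_le ((D m).B z - Bin D x) ((D m).B y - Bin D x)
    linarith)
  -- the radius
  have hsle : s ≤ Real.sqrt ‖(D m).B y‖ := Real.sqrt_le_sqrt (by linarith)
  have hrad : 16 * h ≤ 9 * ρ * Real.sqrt ‖(D m).B y‖ / 10 := by
    have : 9 * ρ * s ≤ 9 * ρ * Real.sqrt ‖(D m).B y‖ :=
      mul_le_mul_of_nonneg_left hsle (by positivity)
    linarith
  have hbs : ball (0 : ℂ) (16 * h) ⊆ ball 0 (9 * ρ * Real.sqrt ‖(D m).B y‖ / 10) :=
    ball_subset_ball hrad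
  have h0m : (0 : ℂ) ∈ ball (0 : ℂ) (16 * h) := mem_ball_self (by positivity)
  -- derivative
  have hder : ∀ w ∈ ball (0 : ℂ) (16 * h), HasDerivAt (fun w => (D m).zz (χ w))
      ((D m).sg * deriv χ w) w := by
    intro w hw
    have h1 : HasDerivAt χ (deriv χ w) w :=
      (hχd.differentiableAt (isOpen_ball.mem_nhds (hbs hw))).hasDerivAt
    have h2 := (h1.const_mul (D m).sg).const_add ((D m).b 0)
    exact h2
  have hder' : ∀ w ∈ ball (0 : ℂ) (16 * h), deriv (fun w => (D m).zz (χ w)) w =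
      (D m).sg * deriv χ w := fun w hw => (hder w hw).deriv
  have hn0 : ‖deriv χ 0‖ ^ 2 * ‖(D m).B y‖ = 1 := by
    have h1 := (hχ 0 (hbs h0m)).2.1
    rw [hχ0] at h1
    have h2 := congrArg norm h1
    rw [norm_mul, norm_pow, norm_one] at h2
    exact h2
  refine ⟨fun w => (D m).zz (χ w), ⟨?_, ?_, ?_⟩, ?_, ?_, ?_, ?_⟩
  · intro w hw
    exact (hder w hw).differentiableAt.differentiableWithinAt
  · intro w hw j hj
    have h1 := (hχ w (hbs hw)).1
    have h2 : (D m).xx ((D m).zz (χ w)) = (D m).p j := by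
      unfold Dat.p; rw [hj]
    rw [hxz] at h2
    exact hBp _ (hsub' h1) j h2
  · intro w hw
    rw [hder' w hw]
    have h1 := (hχ w (hbs hw)).2.1
    unfold Dat.B at h1
    rw [mul_pow, ← h1]
    ring
  · simp only [hχ0]
  · intro w hw
    rw [hder' w hw, hder' 0 h0m, ← mul_sub, norm_mul, norm_mul]
    have h1 := (hχ w (hbs hw)).2.2
    calc ‖(D m).sg‖ * ‖deriv χ w - deriv χ 0‖ ≤ ‖(D m).sg‖ * (‖deriv χ 0‖ / 10) :=
          mul_le_mul_of_nonneg_left h1 (norm_nonneg _)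
      _ = ‖(D m).sg‖ * ‖deriv χ 0‖ / 10 := by ring
  · rw [hder' 0 h0m, norm_mul, div_eq_mul_inv]
    refine mul_le_mul_of_nonneg_left ?_ (norm_nonneg _)
    have hd0 : 0 ≤ ‖deriv χ 0‖ := norm_nonneg _
    rw [inv_le_iff_one_le_mul₀ (by linarith)]
    have h2 : 1 ≤ ‖deriv χ 0‖ ^ 2 * (2 * β) := by
      rw [← hn0]
      exact mul_le_mul_of_nonneg_left (by linarith) (by positivity)
    have h3 : 2 * β ≤ C := by
      have : 0 < 2 / β := by positivity
      linarith
    have h4 : 1 ≤ ‖deriv χ 0‖ ^ 2 * C :=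
      h2.trans (mul_le_mul_of_nonneg_left h3 (by positivity))
    by_contra hc
    push Not at hc
    have h5 : ‖deriv χ 0‖ * C < 1 := by linarith
    have h6 : ‖deriv χ 0‖ < 1 := by nlinarith
    nlinarith
  · rw [hder' 0 h0m, norm_mul, mul_comm]
    refine mul_le_mul_of_nonneg_right ?_ (norm_nonneg _)
    have hd0 : 0 ≤ ‖deriv χ 0‖ := norm_nonneg _
    have h2 : ‖deriv χ 0‖ ^ 2 * (β / 2) ≤ 1 := by
      rw [← hn0]
      exact mul_le_mul_of_nonneg_left (by linarith) (by positivity)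
    have h3 : ‖deriv χ 0‖ ^ 2 ≤ 2 / β := by
      rw [le_div_iff₀ hβ0]
      linarith
    have h4 : 2 / β ≤ C := by linarith
    nlinarith

end V3S
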