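import Pool.Agent.helper10.V3.SpecL

set_option autoImplicit false

open Complex Metric Set Filter Topology MeasureTheory MPS

noncomputable section

namespace V3S

theorem STP_nat_mono {k : ℕ} [NeZero k] {b g : ZMod k → ℂ} {χ : ℂ → ℂ} {s t : Set ℂ}
    (h : IsNat b g χ t) (hst : s ⊆ t) : IsNat b g χ s :=
  ⟨h.diff.mono hst, fun w hw => h.av w (hst hw), fun w hw => h.eq w (hst hw)⟩

theorem STP_lev_mono {k : ℕ} [NeZero k] {f : Polynomial ℂ} {b g : ZMod k → ℂ} {G : ℕ → ℂ → ℂ}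
    {s t : Set ℂ} {Q : ℕ} (h : PPS.LevSys f b g G t Q) (hst : s ⊆ t) : PPS.LevSys f b g G s Q :=
  ⟨STP_nat_mono h.nat0 hst, fun q hq => (h.diff q hq).mono hst,
    fun q hq w hw => h.rel q hq w (hst hw)⟩

theorem STP (hCHT : CHT_stmt) (hSGN : SGN_stmt) (hEXB : EXB_stmt) (hCS : CS_stmt)
    (hREC : REC_stmt) (hBA4 : BA4_stmt) (hCAF : CAF_stmt) : STP_stmt := by
  intro n ra Cf D hD x hx
  obtain ⟨h, hh, η₁, hη₁, C₁, hC₁, hh1, hcht⟩ := hCHT n ra Cf D hD x hx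
  obtain ⟨CK, hCK, hREC⟩ := hREC
  have hC₁0 : 0 < C₁ := by linarith
  refine ⟨min (min η₁ (h / (20 * C₁))) 1, by positivity, ?_⟩
  rintro y hy ⟨r, hr, C, hC, hctl⟩ y' hy'
  have hyη : y ∈ ball x η₁ :=
    ball_subset_ball ((min_le_left _ _).trans (min_le_left _ _)) hy
  have hy1 : dist y x < 1 := lt_of_lt_of_le (mem_ball.1 hy) (min_le_right _ _)
  have hyh : dist y x < h / (20 * C₁) :=
    lt_of_lt_of_le (mem_ball.1 hy) ((min_le_left _ _).trans (min_le_right _ _))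
  have hyh' : dist y' x < h / (20 * C₁) :=
    lt_of_lt_of_le (mem_ball.1 hy') ((min_le_left _ _).trans (min_le_right _ _))
  have hyy : ‖y' - y‖ ≤ h / (10 * C₁) := by
    have h1 := dist_triangle_right y' y x
    rw [dist_eq_norm y' y] at h1
    have h2 : h / (20 * C₁) + h / (20 * C₁) = h / (10 * C₁) := by
      field_simp; ring
    linarith
  have hynorm : ‖y‖ ≤ ‖x‖ + 1 := by
    have h1 : ‖y‖ ≤ ‖y - x‖ + ‖x‖ := by
      have := norm_add_le (y - x) x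
      rwa [sub_add_cancel] at this
    rw [dist_eq_norm] at hy1
    linarith
  set Cb : ℝ := max C C₁ with hCb
  have hCb1 : 1 ≤ Cb := hC₁.trans (le_max_right _ _)
  have hCCb : C ≤ Cb := le_max_left _ _
  have hC1Cb : C₁ ≤ Cb := le_max_right _ _
  set r₀ : ℝ := min r (h / 2) with hr₀
  have hr₀0 : 0 < r₀ := lt_min hr (by positivity)
  have hr₀r : r₀ ≤ r := min_le_left _ _
  have hr₀h : r₀ ≤ h / 2 := min_le_right _ _
  obtain ⟨M, hEXB⟩ := hEXB Cb hCb1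
  have hra0 : 0 < ra := (hD.good 0).ra0
  have hn : 2 ≤ n := (hD.good 0).hn
  set R : ℝ := ra + 16000 * ra * (‖x‖ + 1) + 32000 * ra * C₁ + 1 with hR
  have hRra : ra < R := by
    have h1 : 0 ≤ 16000 * ra * (‖x‖ + 1) := by positivity
    have h2 : 0 ≤ 32000 * ra * C₁ := by positivity
    linarith
  have hR0 : 0 < R := hra0.trans hRra
  obtain ⟨ε₁, hε₁, C₂, hC₂, hCS⟩ := hCS n M h r₀ hn hh hr₀0
  set K : ℝ := 2 * Real.pi + 4 * |Cf R| with hK
  have hK0 : 0 ≤ K := by positivity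
  set C₃ : ℝ := C₂ * (K + Cb) with hC₃
  have hC₃0 : 0 ≤ C₃ := by positivity
  set N : ℝ := max Cb C₃ with hN
  have hN1 : 1 ≤ N := hCb1.trans (le_max_left _ _)
  have hN0 : 0 < N := by linarith
  have hCbN : Cb ≤ N := le_max_left _ _
  have hC3N : C₃ ≤ N := le_max_right _ _
  set C' : ℝ := max (CK * (CK + Cb)) (2 * N) with hC'
  have hC'0 : 0 < C' := lt_of_lt_of_le (by positivity) (le_max_right _ _)
  refine ⟨h / 8, by positivity, C', hC'0, ?_⟩
  -- smallness of lam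
  obtain ⟨δ, hδ, hδ1, hδ2, hδ3, hδ4, hδ5⟩ : ∃ δ : ℝ, 0 < δ ∧ K * δ ≤ ε₁ ∧ Cb * δ ≤ ε₁ ∧
      N * δ ≤ h / 100 ∧ N * δ ≤ r₀ / 100 ∧ Cb * δ ≤ 1 := by
    have hN1' : 0 < K + Cb + N + 1 := by linarith
    refine ⟨min (min ε₁ 1) (min (h / 100) (r₀ / 100)) / (K + Cb + N + 1), by positivity, ?_, ?_, ?_,
      ?_, ?_⟩ <;>
    · rw [mul_div_assoc', div_le_iff₀ hN1']
      have hm0 : 0 < min (min ε₁ 1) (min (h / 100) (r₀ / 100)) := by positivity
      have hm1 : min (min ε₁ 1) (min (h / 100) (r₀ / 100)) ≤ ε₁ :=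
        (min_le_left _ _).trans (min_le_left _ _)
      have hm2 : min (min ε₁ 1) (min (h / 100) (r₀ / 100)) ≤ 1 :=
        (min_le_left _ _).trans (min_le_right _ _)
      have hm3 : min (min ε₁ 1) (min (h / 100) (r₀ / 100)) ≤ h / 100 :=
        (min_le_right _ _).trans (min_le_left _ _)
      have hm4 : min (min ε₁ 1) (min (h / 100) (r₀ / 100)) ≤ r₀ / 100 :=
        (min_le_right _ _).trans (min_le_right _ _)
      rw [mul_comm]
      refine mul_le_mul ?_ ?_ (by linarith) (by positivity)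
      · first | exact hm1 | exact hm2 | exact hm3 | exact hm4
      · linarith
  have hlam : ∀ᶠ m in UF, ‖(D m).lam‖ < δ := by
    have h1 : Tendsto (fun m => ‖(D m).lam‖) atTop (𝓝 0) := by
      have := hD.lim.norm
      rwa [norm_zero] at this
    exact (h1.eventually (gt_mem_nhds hδ)).filter_mono UF_le
  filter_upwards [hcht, hctl, hlam] with m hm1 hm2 hm3
  have hG := hD.good m
  obtain ⟨hSU, hrho1, -, hsg⟩ := hBA4 n ra Cf (D m) hG
  obtain ⟨χ, hχn, hχ0, hχa, hχl, hχu⟩ := hm1 y hyη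
  obtain ⟨χ₁, G₁, Φ₁, ctl⟩ := hm2
  have hval : χ 0 = χ₁ 0 := by rw [hχ0, ctl.val]
  obtain ⟨χ₂, h2n, h20, h2d, h2eq, h2a⟩ := hSGN (D m).k (D m).b (D m).g χ χ₁ (16 * h) (2 * r)
    (by positivity) (by positivity) hχn ctl.nat hval
  have h2aff := h2a hχa
  have hlam0 : 0 ≤ ‖(D m).lam‖ := norm_nonneg _
  have hlamδ : ‖(D m).lam‖ ≤ δ := hm3.le
  have hχ2z : χ₂ 0 = (D m).zz y := by rw [h20, hχ0]
  have h0r : (0 : ℂ) ∈ ball (0 : ℂ) r := mem_ball_self hr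
  have h0r₀ : (0 : ℂ) ∈ ball (0 : ℂ) r₀ := mem_ball_self hr₀0
  -- agreement of the charts
  have heq0 : EqOn (G₁ 0) χ₂ (ball 0 r₀) := by
    intro w hw
    rw [ctl.g0 (ball_subset_ball hr₀r hw)]
    symm
    apply h2eq
    refine ball_subset_ball (le_min ?_ ?_) hw
    · linarith
    · linarith
  have hkc' : ∀ q, 1 ≤ q → q ≤ (D m).k →
      ‖G₁ q 0 - (D m).b (-(q : ZMod (D m).k))‖ ≤ Cb * ‖deriv (G₁ q) 0‖ := by
    intro q hq1 hq2
    exact (ctl.kc q hq1 hq2).trans (mul_le_mul_of_nonneg_right hCCb (norm_nonneg _))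
  have hd2u : ‖deriv χ₂ 0‖ ≤ C₁ * ‖(D m).sg‖ := by rw [h2d]; exact hχu
  have hd2l : ‖(D m).sg‖ / C₁ ≤ ‖deriv χ₂ 0‖ := by rw [h2d]; exact hχl
  have hsum0 : ∑ q ∈ Finset.Icc 1 (D m).k, PPS.lev (D m).b (D m).g G₁ q 0 ≤ C * ‖(D m).lam‖ :=
    ctl.sum 0 h0r
  have hCblam : Cb * ‖(D m).lam‖ ≤ Cb * δ := mul_le_mul_of_nonneg_left hlamδ (by linarith)
  have hClam : C * ‖(D m).lam‖ ≤ Cb * ‖(D m).lam‖ := mul_le_mul_of_nonneg_right hCCb hlam0
  have hexc := hEXB n ra Cf (D m) hG y h r χ₂ G₁ hh hh1 hr h2n hχ2z h2aff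
    (hd2u.trans (mul_le_mul_of_nonneg_right hC1Cb (norm_nonneg _))) ctl.lev
    (by rw [ctl.g0 h0r, ctl.val, hχ2z]) (by linarith) hkc'
  -- the image of the chart
  obtain ⟨-, -, hbi, -⟩ := hCAF (D m).k (D m).b (D m).g χ₂ (16 * h) (by positivity) h2n h2aff
  have hmp : MapsTo χ₂ (ball 0 h) (ball 0 R) := by
    intro w hw
    have hw' : ‖w‖ < h := by simpa using hw
    have h1 := (hbi w (ball_subset_ball (by linarith) hw) 0 (mem_ball_self (by positivity))).2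
    rw [sub_zero] at h1
    have h2 : ‖χ₂ w‖ ≤ ‖χ₂ w - χ₂ 0‖ + ‖χ₂ 0‖ := by
      have := norm_add_le (χ₂ w - χ₂ 0) (χ₂ 0)
      rwa [sub_add_cancel] at this
    have h3 : ‖χ₂ 0‖ ≤ ra + 16000 * ra * (‖x‖ + 1) := by
      rw [hχ2z]
      unfold Dat.zz
      refine (norm_add_le _ _).trans (add_le_add (hG.hra 0) ?_)
      rw [norm_mul]
      exact mul_le_mul hsg hynorm (norm_nonneg _) (by positivity)
    have h4 : 11 / 10 * ‖deriv χ₂ 0‖ * ‖w‖ ≤ 32000 * ra * C₁ := by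
      have e1 : ‖deriv χ₂ 0‖ ≤ C₁ * (16000 * ra) :=
        hd2u.trans (mul_le_mul_of_nonneg_left hsg hC₁0.le)
      have e2 : ‖deriv χ₂ 0‖ * ‖w‖ ≤ C₁ * (16000 * ra) * 1 :=
        mul_le_mul e1 (by linarith) (norm_nonneg _) (by positivity)
      have e3 : 0 < C₁ * ra := by positivity
      nlinarith
    rw [mem_ball_zero_iff]
    linarith
  -- the chain step
  have hHC : HC n (D m).k (D m).f (D m).b (D m).g ra R (K * ‖(D m).lam‖) χ₂ h r₀
      (Cb * ‖(D m).lam‖) M G₁ :=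
    { hn := hG.hn
      hdeg := hG.hdeg
      hk := hG.hk
      cyc := hG.cyc
      rho1 := hrho1
      hra := hG.hra
      hR := hRra
      posR := hR0
      inv := hG.inv R hRra
      hE := (hSU R hRra).hE
      h0 := hh
      h1 := hh1
      nat := h2n
      aff := h2aff
      mp := hmp
      r0 := hr₀0
      r1 := hr₀h
      lev0 := STP_lev_mono ctl.lev (ball_subset_ball hr₀r)
      g0 := heq0
      eta := hsum0.trans hClam
      exc := hexc }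
  have hKlam : K * ‖(D m).lam‖ ≤ K * δ := mul_le_mul_of_nonneg_left hlamδ hK0
  obtain ⟨G, hGl, hG0, hGe, hGs⟩ := hCS (D m).k (D m).f (D m).b (D m).g ra R (K * ‖(D m).lam‖)
    (Cb * ‖(D m).lam‖) χ₂ G₁ hHC (by linarith) (by linarith)
  have hNlam : N * ‖(D m).lam‖ ≤ N * δ := mul_le_mul_of_nonneg_left hlamδ hN0.le
  have hCbNlam : Cb * ‖(D m).lam‖ ≤ N * ‖(D m).lam‖ := mul_le_mul_of_nonneg_right hCbN hlam0
  have hder : ∀ q ≤ (D m).k, deriv (G q) 0 = deriv (G₁ q) 0 := by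
    intro q hq
    apply Filter.EventuallyEq.deriv_eq
    exact Filter.eventuallyEq_of_mem (ball_mem_nhds 0 hr₀0) (hGe q hq)
  refine hREC n ra Cf (D m) hG y y' h r₀ Cb C₁ (N * ‖(D m).lam‖) χ₂ G Φ₁ hh hh1 hr₀0 hr₀h hCb1 hC₁
    (by positivity) (by linarith) (by linarith) h2n hχ2z h2aff hd2l hyy
    (STP_lev_mono hGl (ball_subset_ball (by linarith)))
    (hG0.mono (ball_subset_ball (by linarith))) ?_ (ctl.phd.mono (ball_subset_ball hr₀r)) ?_ ?_
    C' (le_max_left _ _) ?_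
  · intro w hw
    refine (hGs w (ball_subset_closedBall hw)).trans ?_
    have e1 : C₂ * (K * ‖(D m).lam‖ + Cb * ‖(D m).lam‖) = C₃ * ‖(D m).lam‖ := by
      rw [hC₃]; ring
    rw [e1]
    exact mul_le_mul_of_nonneg_right hC3N hlam0
  · intro w hw
    have hwr : w ∈ ball (0 : ℂ) r := ball_subset_ball hr₀r hw
    obtain ⟨-, hp2, hp3⟩ := ctl.phi w hwr
    have hp4 : ‖Φ₁ w - w‖ ≤ N * ‖(D m).lam‖ := hp2.trans (hClam.trans hCbNlam)
    have hw' : ‖w‖ < r₀ := by simpa using hw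
    have hp5 : ‖Φ₁ w‖ < 2 * r₀ := by
      have := norm_add_le (Φ₁ w - w) w
      rw [sub_add_cancel] at this
      linarith
    refine ⟨?_, hp4, ?_⟩
    · rw [mem_ball_zero_iff]; linarith
    · have hp6 : Φ₁ w ∈ ball (0 : ℂ) (min (16 * h) (2 * r)) := by
        rw [mem_ball_zero_iff]
        refine lt_min ?_ ?_ <;> linarith
      rw [h2eq hp6, hp3, hGe (D m).k le_rfl hw]
  · intro q hq1 hq2
    rw [hGe q hq2 h0r₀, hder q hq2]
    exact hkc' q hq1 hq2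
  · have e1 : 2 * N ≤ C' := le_max_right _ _
    calc 2 * (N * ‖(D m).lam‖) = 2 * N * ‖(D m).lam‖ := by ring
      _ ≤ C' * ‖(D m).lam‖ := mul_le_mul_of_nonneg_right e1 hlam0

end V3S
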